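import Mathlib
import Pool.Agent.U946.EHMForced

/-!
# Limit ordinals with an infinite path or a large independent set: forced answers

The property of an ordinal `α` is that every graph on `α` has an infinite path or an independent set
of order type `α`. It is not decided by ZFC:

* in a forcing extension the continuum hypothesis holds, and there the limit ordinals below `ω₂`
  with the property are exactly those below `ω₁ ^ (ω + 2)`;
* if there is a cardinal `μ → (ω)^{<ω}_2`, then more than `μ` Cohen reals force two properties of
  `μ` which imply that all limit ordinals have the property.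

The forcing language is the one of `Helper669.Forcing` and `Helper292.ForceCH`: a sentence is the
set of the conditions which force it; `CHHolds P` says that `ω₁` many subsets of `ℕ` are all subsets
of `ℕ`. `Erdos`, `FreeSequences`, `Covering`, their translations and `Cohen` are those of
`MP_95a8e7_lc.Independence`.
-/

set_option autoImplicit false

namespace Pool.Agent.Results.MP_931ca8_lc.ForcedClass

open Cardinal Ordinal Pool.Agent.Helper292.ForceCH
open Pool.Agent.Results.MP_95a8e7_lc.Independence (Erdos FreeSequences Covering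
  ForcesFreeSequences ForcesCovering Cohen)

/-- `P(α)`: every graph on `α` (realised as the well-ordered type `α.ToType` of order type `α`) has
an infinite path (an injective sequence of vertices, consecutive ones adjacent) or an independent
set of order type `α`. -/
def P (α : Ordinal.{0}) : Prop :=
  ∀ G : SimpleGraph α.ToType,
    (∃ f : ℕ → α.ToType, Function.Injective f ∧ ∀ n, G.Adj (f n) (f (n + 1))) ∨
    ∃ S : Set α.ToType, G.IsIndepSet S ∧ typeLT S = α

/-- (1) Some forcing notion forces that `ω₁` is preserved and that the continuum hypothesis holds.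
(2) The continuum hypothesis implies that a limit ordinal `α < ω₂` has the property if and only if
`α < ω₁ ^ (ω + 2)`; so `ω₁ ^ (ω + 2)` does not have it. (3) If some infinite cardinal `μ` has the
free sequence property and the covering property, then every limit ordinal has the property.
(4) If `μ → (ω)^{<ω}_2`, then all conditions of the notion of forcing which adds more than `μ`
Cohen reals force both properties of `μ`. -/
theorem result :
    (∃ (Q : Type) (_ : Preorder Q), Nonempty Q ∧ ∀ p : Q,
      p ∈ OmegaOnePreserved Q ∧ p ∈ CHHolds Q) ∧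
    ((ℵ₁ : Cardinal.{0}) = 𝔠 →
      (∀ α : Ordinal.{0}, Order.IsSuccLimit α → α < ω_ 2 → (P α ↔ α < ω_ 1 ^ (ω + 2))) ∧
      ¬ P (ω_ 1 ^ (ω + 2))) ∧
    (∀ μ : Cardinal.{0}, ℵ₀ ≤ μ → FreeSequences μ.ord.ToType → Covering μ.ord.ToType →
      ∀ α : Ordinal.{0}, Order.IsSuccLimit α → P α) ∧
    (∀ μ : Cardinal.{0}, ℵ₀ ≤ μ → Erdos μ.ord.ToType → ∀ L : Type, μ < #L →
      ∀ p : Cohen L, p ∈ ForcesFreeSequences (Cohen L) μ.ord.ToType ∧
        p ∈ ForcesCovering (Cohen L) μ.ord.ToType) := by
  have hiff : ∀ α : Ordinal.{0}, P α ↔ MP_95a8e7_lc.Independence.PropP α := fun α =>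
    Iff.rfl
  obtain ⟨_, h2, h3, h4⟩ := MP_95a8e7_lc.Independence.result
  refine ⟨?_, fun h => ⟨fun α hα h2 => ?_, ?_⟩, fun μ hμ hF hC α hα => ?_, fun μ hμ hE L hL => ?_⟩
  · obtain ⟨Q, i, h1, h2⟩ := exists_forcing
    exact ⟨Q, i, h1, fun p => ⟨(h2 p).1, (h2 p).2.2⟩⟩
  · rw [hiff]
    exact U946.EHM.propP_iff_of_ch h hα h2
  · rw [hiff, U946.EHM.propP_iff_of_ch h U946.EHM.isSuccLimit_critical U946.EHM.critical_lt]
    exact lt_irrefl _
  · exact (hiff α).2 (h2 μ hμ hF hC α hα)
  · exact h4 μ hμ (h3 μ hE) L hL

end Pool.Agent.Results.MP_931ca8_lc.ForcedClass
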